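import Mathlib

open PowerSeries Matrix

namespace Pool.Agent.Results.MP_b5bb8b_co.Unbounded

/-- directed edges: ordered pairs of adjacent vertices -/
abbrev DE {V : Type} (G : SimpleGraph V) : Type := {p : V × V // G.Adj p.1 p.2}

/-- the nonbacktracking matrix -/
def nb {V : Type} [DecidableEq V] (G : SimpleGraph V) : Matrix (DE G) (DE G) ℂ :=
  fun e f => if e.1.2 = f.1.1 ∧ e.1.1 ≠ f.1.2 then 1 else 0

/-- `b` is a Jordan basis of `M` with blocks `i : Fin r` of size `sz i` and eigenvalue `mu i`. -/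
def IsJordanBasis {ι : Type} [Fintype ι] (M : Matrix ι ι ℂ) (r : ℕ) (sz : Fin r → ℕ)
    (mu : Fin r → ℂ) (b : Module.Basis (Σ i : Fin r, Fin (sz i)) ℂ (ι → ℂ)) : Prop :=
  ∀ (i : Fin r) (j : Fin (sz i)), M *ᵥ b ⟨i, j⟩ =
    mu i • b ⟨i, j⟩ + (if h : 0 < j.1 then b ⟨i, ⟨j.1 - 1, by omega⟩⟩ else 0)

theorem sum_de {V : Type} [Fintype V] [DecidableEq V] (G : SimpleGraph V) [DecidableRel G.Adj]
    {A : Type} [AddCommMonoid A] (F : V × V → A) :
    ∑ e : DE G, F e.1 = ∑ u, ∑ v, if G.Adj u v then F (u, v) else 0 := by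
  rw [← Finset.sum_subtype (Finset.univ.filter (fun p : V × V => G.Adj p.1 p.2)) (by simp) F,
    Finset.sum_filter, Fintype.sum_prod_type]

theorem chain {V : Type} [Fintype V] [DecidableEq V] (G : SimpleGraph V) [DecidableRel G.Adj]
    (N : ℕ) (l t : ℂ) (ht : t ≠ 0) (hl : l ^ 2 ≠ 1) (f : V → ℂ⟦X⟧)
    (hf : ∀ v, (X : ℂ⟦X⟧) ^ (N + 1) ∣ (C l + C t * X) ^ 2 * f v
      - (C l + C t * X) * (∑ u, if G.Adj v u then f u else 0) + ((G.degree v : ℂ⟦X⟧) - 1) * f v)
    (v0 u0 : V) (h0 : G.Adj v0 u0) (hv0 : coeff 0 (f v0) ≠ 0) :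
    ∃ x : DE G → ℂ, (nb G - l • (1 : Matrix (DE G) (DE G) ℂ)) ^ (N + 1) *ᵥ x = 0 ∧
      (nb G - l • (1 : Matrix (DE G) (DE G) ℂ)) ^ N *ᵥ x ≠ 0 := by
  set L : ℂ⟦X⟧ := C l + C t * X with hL
  let g : V × V → ℂ⟦X⟧ := fun p => L * f p.2 - f p.1
  have key : ∀ e : DE G, (X : ℂ⟦X⟧) ^ (N + 1) ∣
      L * g e.1 - ∑ e' : DE G, (if e.1.2 = e'.1.1 ∧ e.1.1 ≠ e'.1.2 then g e'.1 else 0) := by
    rintro ⟨⟨u, v⟩, huv⟩
    have h1 : ∑ e' : DE G, (if v = e'.1.1 ∧ u ≠ e'.1.2 then g e'.1 else 0)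
        = ∑ y, if G.Adj v y ∧ u ≠ y then g (v, y) else 0 := by
      rw [sum_de G (fun p => if v = p.1 ∧ u ≠ p.2 then g p else 0)]
      rw [Finset.sum_eq_single v]
      · refine Finset.sum_congr rfl fun y _ => ?_
        by_cases h : G.Adj v y <;> simp [h]
      · intro w _ hw
        refine Finset.sum_eq_zero fun y _ => ?_
        simp [hw.symm]
      · simp
    have h2 : ∑ y, (if G.Adj v y ∧ u ≠ y then g (v, y) else 0)
        = (∑ y, if G.Adj v y then g (v, y) else 0) - g (v, u) := by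
      rw [eq_sub_iff_add_eq]
      have : g (v, u) = ∑ y, if y = u then g (v, y) else 0 := by simp
      rw [this, ← Finset.sum_add_distrib]
      refine Finset.sum_congr rfl fun y _ => ?_
      by_cases hy : y = u
      · subst hy; simp [huv.symm]
      · simp [hy, Ne.symm hy]
    have h3 : (∑ y, if G.Adj v y then g (v, y) else 0)
        = L * (∑ y, if G.Adj v y then f y else 0) - (G.degree v : ℂ⟦X⟧) * f v := by
      have : (G.degree v : ℂ⟦X⟧) = ∑ y, if G.Adj v y then 1 else 0 := by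
        rw [← SimpleGraph.card_neighborFinset_eq_degree, SimpleGraph.neighborFinset_eq_filter]
        simp
      rw [this, Finset.mul_sum, Finset.sum_mul, ← Finset.sum_sub_distrib]
      refine Finset.sum_congr rfl fun y _ => ?_
      by_cases h : G.Adj v y <;> simp [h, g]
    simp only
    rw [h1, h2, h3]
    convert hf v using 1
    simp only [g]; ring
  let w : ℕ → DE G → ℂ := fun j e => coeff j (g e.1)
  have hB : ∀ j, j ≤ N → ∀ e : DE G, (nb G *ᵥ w j) e = coeff j (L * g e.1) := by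
    intro j hj e
    have := (X_pow_dvd_iff.1 (key e)) j (by omega)
    rw [map_sub, sub_eq_zero] at this
    rw [this, map_sum]
    simp only [Matrix.mulVec, dotProduct, nb, w]
    refine Finset.sum_congr rfl fun e' _ => ?_
    split_ifs <;> simp
  set M := nb G - l • (1 : Matrix (DE G) (DE G) ℂ) with hM
  have s0 : M *ᵥ w 0 = 0 := by
    funext e
    rw [hM, Matrix.sub_mulVec, Matrix.smul_mulVec, Matrix.one_mulVec, Pi.sub_apply,
      hB 0 (by omega) e, hL]
    simp [w, add_mul, mul_assoc]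
  have s1 : ∀ j, j + 1 ≤ N → M *ᵥ w (j + 1) = t • w j := by
    intro j hj
    funext e
    rw [hM, Matrix.sub_mulVec, Matrix.smul_mulVec, Matrix.one_mulVec, Pi.sub_apply,
      hB (j + 1) hj e, hL]
    simp [w, add_mul, mul_assoc, coeff_succ_X_mul]
  have s2 : ∀ j, j ≤ N → M ^ j *ᵥ w j = t ^ j • w 0 := by
    intro j
    induction j with
    | zero => simp
    | succ j ih =>
      intro hj
      rw [pow_succ, ← Matrix.mulVec_mulVec, s1 j hj, Matrix.mulVec_smul, ih (by omega), smul_smul,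
        pow_succ, mul_comm]
  have w0 : w 0 ≠ 0 := by
    intro h
    have a1 := congrFun h ⟨(v0, u0), h0⟩
    have a2 := congrFun h ⟨(u0, v0), h0.symm⟩
    simp only [w, g, hL, Pi.zero_apply, map_sub, add_mul, map_add, coeff_C_mul, mul_assoc,
      coeff_zero_X_mul, mul_zero, add_zero] at a1 a2
    apply hv0
    have : (l ^ 2 - 1) * coeff 0 (f v0) = 0 := by linear_combination l * a2 + a1
    exact (mul_eq_zero.1 this).resolve_left (sub_ne_zero.2 hl)
  refine ⟨w N, ?_, ?_⟩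
  · rw [pow_succ', ← Matrix.mulVec_mulVec, s2 N le_rfl, Matrix.mulVec_smul, s0, smul_zero]
  · rw [s2 N le_rfl]
    exact smul_ne_zero (pow_ne_zero _ ht) w0

theorem jordan_of_chain {ι : Type} [Fintype ι] [DecidableEq ι] (M : Matrix ι ι ℂ) (N : ℕ) (l : ℂ)
    (x : ι → ℂ) (h1 : (M - l • (1 : Matrix ι ι ℂ)) ^ (N + 1) *ᵥ x = 0)
    (h2 : (M - l • (1 : Matrix ι ι ℂ)) ^ N *ᵥ x ≠ 0)
    (r : ℕ) (sz : Fin r → ℕ) (mu : Fin r → ℂ)
    (b : Module.Basis (Σ i : Fin r, Fin (sz i)) ℂ (ι → ℂ)) (hb : IsJordanBasis M r sz mu b) :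
    ∃ i, N + 1 ≤ sz i := by
  by_contra hcon
  push Not at hcon
  let T : ℂ → Matrix ι ι ℂ := fun c => M - c • (1 : Matrix ι ι ℂ)
  have comm : ∀ c d, Commute (T c) (T d) := by
    intro c d
    simp only [T, Commute, SemiconjBy, sub_mul, mul_sub, smul_mul_assoc, mul_smul_comm, one_mul,
      mul_one, smul_smul, smul_sub]
    rw [mul_comm c d]; abel
  have kill : ∀ (i : Fin r) (n : ℕ) (hn : n < sz i), T (mu i) ^ (n + 1) *ᵥ b ⟨i, ⟨n, hn⟩⟩ = 0 := by
    intro i n
    induction n with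
    | zero =>
      intro hn
      have := hb i ⟨0, hn⟩
      simp only [lt_irrefl, dif_neg, not_false_eq_true, add_zero] at this
      simp [T, Matrix.sub_mulVec, Matrix.smul_mulVec, this]
    | succ n ih =>
      intro hn
      have := hb i ⟨n + 1, hn⟩
      simp only [Nat.succ_pos, dif_pos, Nat.add_sub_cancel] at this
      rw [pow_succ, ← Matrix.mulVec_mulVec]
      have e : T (mu i) *ᵥ b ⟨i, ⟨n + 1, hn⟩⟩ = b ⟨i, ⟨n, by omega⟩⟩ := by
        simp [T, Matrix.sub_mulVec, Matrix.smul_mulVec, this]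
      rw [e]; exact ih _
  have killN : ∀ (i : Fin r) (j : Fin (sz i)), T (mu i) ^ N *ᵥ b ⟨i, j⟩ = 0 := by
    intro i j
    have hj : j.1 + 1 ≤ N := by have := hcon i; have := j.2; omega
    obtain ⟨d, hd⟩ := Nat.exists_eq_add_of_le' hj
    rw [hd, pow_add, ← Matrix.mulVec_mulVec, kill i j.1 j.2, Matrix.mulVec_zero]
  -- for each finite set of eigenvalues different from l
  have main : ∀ s : Finset ℂ, l ∉ s → ∃ P : Matrix ι ι ℂ, (∀ c, Commute P (T c)) ∧
      (∀ c ∈ s, ∃ Q, P = Q * T c ^ N) ∧ ∃ a : ℂ, a ≠ 0 ∧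
        P *ᵥ (T l ^ N *ᵥ x) = a • (T l ^ N *ᵥ x) := by
    intro s
    induction s using Finset.induction_on with
    | empty => intro _; exact ⟨1, fun c => Commute.one_left _, by simp, 1, one_ne_zero, by simp⟩
    | insert c s hc ih =>
      intro hl
      rw [Finset.mem_insert, not_or] at hl
      obtain ⟨P, hP, hQ, a, ha, hPa⟩ := ih hl.2
      have ev : T c *ᵥ (T l ^ N *ᵥ x) = (l - c) • (T l ^ N *ᵥ x) := by
        have e1 : T l *ᵥ (T l ^ N *ᵥ x) = 0 := by
          rw [Matrix.mulVec_mulVec, ← pow_succ']; exact h1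
        have e2 : T c = T l + (l - c) • (1 : Matrix ι ι ℂ) := by
          simp only [T, sub_smul]; abel
        rw [e2, Matrix.add_mulVec, e1, Matrix.smul_mulVec, Matrix.one_mulVec, zero_add]
      have evn : ∀ n : ℕ, T c ^ n *ᵥ (T l ^ N *ᵥ x) = (l - c) ^ n • (T l ^ N *ᵥ x) := by
        intro n
        induction n with
        | zero => simp
        | succ n ihn =>
          rw [pow_succ, ← Matrix.mulVec_mulVec, ev, Matrix.mulVec_smul, ihn, smul_smul, pow_succ,
            mul_comm]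
      refine ⟨P * T c ^ N, fun d => (hP d).mul_left ((comm c d).pow_left N), ?_,
        a * (l - c) ^ N, mul_ne_zero ha (pow_ne_zero _ (sub_ne_zero.2 hl.1)), ?_⟩
      · intro d hd
        rcases Finset.mem_insert.1 hd with rfl | hd
        · exact ⟨P, rfl⟩
        · obtain ⟨Q, hQ'⟩ := hQ d hd
          refine ⟨Q * T c ^ N, ?_⟩
          rw [hQ', mul_assoc, mul_assoc, ((comm d c).pow_pow N N).eq]
      · rw [← Matrix.mulVec_mulVec, evn, Matrix.mulVec_smul, hPa, smul_smul, mul_comm]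
  obtain ⟨P, hP, hQ, a, ha, hPa⟩ := main ((Finset.univ.image mu).erase l) (by simp)
  have zero : ∀ y, (P * T l ^ N) *ᵥ y = 0 := by
    intro y
    rw [← b.sum_repr y, Matrix.mulVec_sum]
    refine Finset.sum_eq_zero fun k _ => ?_
    obtain ⟨i, j⟩ := k
    rw [Matrix.mulVec_smul]
    have : (P * T l ^ N) *ᵥ b ⟨i, j⟩ = 0 := by
      by_cases h : mu i = l
      · rw [← Matrix.mulVec_mulVec, ← h, killN, Matrix.mulVec_zero]
      · obtain ⟨Q, hQ'⟩ := hQ (mu i) (by simp [h])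
        rw [hQ', mul_assoc, ((comm (mu i) l).pow_pow N N).eq, ← mul_assoc,
          ← Matrix.mulVec_mulVec, killN, Matrix.mulVec_zero]
    rw [this, smul_zero]
  have := zero x
  rw [← Matrix.mulVec_mulVec, hPa] at this
  exact h2 ((smul_eq_zero.1 this).resolve_left ha)


/-- two copies of `W` joined crosswise along `R`, plus `p w` paths of length two between the
copies of `w` -/
def dbl {W : Type} (R : W → W → Prop) (hR : ∀ a b, R a b → R b a) (p : W → ℕ) :
    SimpleGraph ((Bool × W) ⊕ (Σ w : W, Fin (p w))) where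
  Adj x y := match x, y with
    | .inl a, .inl b => a.1 ≠ b.1 ∧ R a.2 b.2
    | .inl a, .inr b => a.2 = b.1
    | .inr a, .inl b => a.1 = b.2
    | .inr _, .inr _ => False
  symm := ⟨by
    rintro (a | a) (b | b) h
    · exact ⟨h.1.symm, hR _ _ h.2⟩
    · exact h.symm
    · exact h.symm
    · exact h⟩
  loopless := ⟨by
    rintro (a | a) h
    · exact h.1 rfl
    · exact h⟩

theorem lemB {W : Type} [Fintype W] [DecidableEq W] (R : W → W → Prop) [DecidableRel R]
    (hR : ∀ a b, R a b → R b a) (e : W → ℕ) (he : ∀ w, 1 ≤ e w)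
    (hd : ∀ w, (∑ u, if R w u then 1 else 0) ≤ e w + 1) (n : ℕ) (L : ℂ⟦X⟧) (x : W → ℂ⟦X⟧)
    (hx : ∀ w, (X : ℂ⟦X⟧) ^ n ∣ L ^ 2 * x w + L * (∑ u, if R w u then x u else 0) + e w * x w)
    (w0 : W) (hw0 : coeff 0 (x w0) ≠ 0) :
    ∃ (V : Type) (_ : Fintype V) (_ : DecidableEq V) (G : SimpleGraph V) (_ : DecidableRel G.Adj)
      (f : V → ℂ⟦X⟧), (∀ v, 2 ≤ ∑ u, if G.Adj v u then 1 else 0) ∧
      (∀ v, (X : ℂ⟦X⟧) ^ n ∣ L ^ 2 * f v - L * (∑ u, if G.Adj v u then f u else 0)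
        + (((∑ u, if G.Adj v u then 1 else 0 : ℕ) : ℂ⟦X⟧) - 1) * f v) ∧
      ∃ v0, coeff 0 (f v0) ≠ 0 := by
  classical
  let p : W → ℕ := fun w => e w + 1 - ∑ u, if R w u then 1 else 0
  let f : (Bool × W) ⊕ (Σ w : W, Fin (p w)) → ℂ⟦X⟧ :=
    Sum.elim (fun a => if a.1 then x a.2 else - x a.2) (fun _ => 0)
  have deg1 : ∀ a : Bool × W, (∑ u, if (dbl R hR p).Adj (.inl a) u then 1 else 0) = e a.2 + 1 := by
    rintro ⟨b, w⟩
    rw [Fintype.sum_sum_type, Fintype.sum_prod_type, Fintype.sum_sigma]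
    have h1 : (∑ i : W, ∑ j : Fin (p i), if (dbl R hR p).Adj (.inl (b, w)) (.inr ⟨i, j⟩) then 1 else 0)
        = p w := by
      rw [Finset.sum_eq_single w]
      · simp [dbl]
      · intro i _ hi
        simp [dbl, hi.symm]
      · simp
    have h2 : (∑ c : Bool, ∑ u : W, if (dbl R hR p).Adj (.inl (b, w)) (.inl (c, u)) then 1 else 0)
        = ∑ u, if R w u then 1 else 0 := by
      cases b <;> simp [dbl]
    rw [h1, h2]
    have := hd w
    simp only [p]; omega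
  have deg2 : ∀ a : (Σ w : W, Fin (p w)),
      (∑ u, if (dbl R hR p).Adj (.inr a) u then 1 else 0) = 2 := by
    rintro ⟨w, j⟩
    rw [Fintype.sum_sum_type, Fintype.sum_prod_type]
    have h : ∀ c : Bool,
        (∑ u : W, if (dbl R hR p).Adj (.inr ⟨w, j⟩) (.inl (c, u)) then 1 else 0) = 1 := by
      intro c
      rw [Finset.sum_eq_single w]
      · simp [dbl]
      · intro i _ hi
        simp [dbl, hi.symm]
      · simp
    simp only [h]
    simp [dbl]
  refine ⟨_, inferInstance, inferInstance, dbl R hR p, inferInstance, f, ?_, ?_, .inl (true, w0),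
    by simpa [f] using hw0⟩
  · rintro (a | a)
    · rw [deg1]; have := he a.2; omega
    · rw [deg2]
  · rintro (⟨b, w⟩ | ⟨w, j⟩)
    · rw [deg1]
      have h : (∑ u, if (dbl R hR p).Adj (.inl (b, w)) u then f u else 0)
          = (if b then -1 else 1) * ∑ u, if R w u then x u else 0 := by
        rw [Fintype.sum_sum_type, Fintype.sum_prod_type]
        cases b
        · simp [dbl, f]
        · simp only [dbl, f, Fintype.sum_bool]
          simp [← Finset.sum_neg_distrib, neg_ite]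
      rw [h]
      cases b
      · have := (hx w).neg_right
        convert this using 1
        simp [f]; ring
      · have := hx w
        convert this using 1
        simp [f]
    · have h : (∑ u, if (dbl R hR p).Adj (.inr ⟨w, j⟩) u then f u else 0) = 0 := by
        rw [Fintype.sum_sum_type, Fintype.sum_prod_type]
        simp [dbl, f]
      rw [h]; simp [f]

/-- centre vertices joined to everything in the arms, arms are complete with loops -/
def starR (n0 : ℕ) {A : Type} (s : A → ℕ) :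
    (Fin n0 ⊕ (Σ a : A, Fin (s a))) → (Fin n0 ⊕ (Σ a : A, Fin (s a))) → Prop
  | .inl _, .inl _ => False
  | .inl _, .inr _ => True
  | .inr _, .inl _ => True
  | .inr a, .inr b => a.1 = b.1

theorem lemC {A : Type} [Fintype A] (n0 e0 : ℕ) (hn0 : 0 < n0) (he0 : 1 ≤ e0) (s e : A → ℕ)
    (he : ∀ a, 1 ≤ e a) (h1 : ∑ a, s a ≤ e0 + 1) (h2 : ∀ a, n0 + s a ≤ e a + 1)
    (n : ℕ) (L : ℂ⟦X⟧) (y : A → ℂ⟦X⟧)
    (hy : ∀ a, (L ^ 2 + s a * L + e a) * y a + n0 * L = 0)
    (hc : (X : ℂ⟦X⟧) ^ n ∣ L ^ 2 + e0 + L * ∑ a, s a * y a) :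
    ∃ (V : Type) (_ : Fintype V) (_ : DecidableEq V) (G : SimpleGraph V) (_ : DecidableRel G.Adj)
      (f : V → ℂ⟦X⟧), (∀ v, 2 ≤ ∑ u, if G.Adj v u then 1 else 0) ∧
      (∀ v, (X : ℂ⟦X⟧) ^ n ∣ L ^ 2 * f v - L * (∑ u, if G.Adj v u then f u else 0)
        + (((∑ u, if G.Adj v u then 1 else 0 : ℕ) : ℂ⟦X⟧) - 1) * f v) ∧
      ∃ v0, coeff 0 (f v0) ≠ 0 := by
  classical
  refine lemB (starR n0 s) ?_ (Sum.elim (fun _ => e0) (fun a => e a.1)) ?_ ?_ n L
    (Sum.elim (fun _ => 1) (fun a => y a.1)) ?_ (.inl ⟨0, hn0⟩) (by simp)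
  · rintro (a | a) (b | b) h
    · exact h
    · trivial
    · trivial
    · exact Eq.symm h
  · rintro (a | a)
    · exact he0
    · exact he _
  · rintro (a | ⟨a, j⟩)
    · rw [Fintype.sum_sum_type, Fintype.sum_sigma]
      simpa [starR] using h1
    · rw [Fintype.sum_sum_type, Fintype.sum_sigma]
      have : (∑ b : A, ∑ k : Fin (s b), if starR n0 s (.inr ⟨a, j⟩) (.inr ⟨b, k⟩) then 1 else 0)
          = s a := by
        rw [Finset.sum_eq_single a]
        · simp [starR]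
        · intro b _ hb; simp [starR, hb.symm]
        · simp
      rw [this]
      simpa [starR] using h2 a
  · rintro (a | ⟨a, j⟩)
    · rw [Fintype.sum_sum_type, Fintype.sum_sigma]
      convert hc using 1
      simp [starR]; ring
    · rw [Fintype.sum_sum_type, Fintype.sum_sigma]
      have : (∑ b : A, ∑ k : Fin (s b), if starR n0 s (.inr ⟨a, j⟩) (.inr ⟨b, k⟩) then
          (Sum.elim (fun _ => 1) (fun a => y a.1) : (Fin n0 ⊕ (Σ a : A, Fin (s a))) → ℂ⟦X⟧)
            (.inr ⟨b, k⟩) else 0) = s a * y a := by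
        rw [Finset.sum_eq_single a]
        · simp [starR]
        · intro b _ hb; simp [starR, hb.symm]
        · simp
      rw [this]
      have h0 := hy a
      convert dvd_zero _ using 1
      rw [← h0]
      simp [starR]; ring


theorem solve (N : ℕ) : ∃ S : Matrix (Fin (N + 1)) (Fin (N + 1)) ℚ, ∀ (r : Fin (N + 1) → ℚ)
    (j : Fin (N + 1)), ∑ i : Fin (N + 1), (∑ k, r k * S k i) * ((i : ℚ) + 1) ^ j.1 = r j := by
  let v : Fin (N + 1) → ℚ := fun i => (i : ℚ) + 1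
  have hv : (vandermonde v).det ≠ 0 := by
    rw [det_vandermonde_ne_zero_iff]
    intro i j h
    simp only [v, add_left_inj, Nat.cast_inj] at h
    exact Fin.ext h
  refine ⟨(vandermonde v)⁻¹, fun r j => ?_⟩
  have : (r ᵥ* (vandermonde v)⁻¹) ᵥ* vandermonde v = r := by
    rw [Matrix.vecMul_vecMul, Matrix.nonsing_inv_mul _ (Ne.isUnit hv), Matrix.vecMul_one]
  have := congrFun this j
  simpa [Matrix.vecMul, dotProduct, vandermonde_apply, v] using this

theorem moments (N : ℕ) : ∃ d : ℚ, 0 < d ∧ d < 1 ∧ ∀ T : ℕ → ℚ, ∃ A B : Fin (N + 1) → ℚ,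
    (∀ i, 0 < A i) ∧ (∀ i, 0 < B i) ∧ ∀ j < N, ∑ i : Fin (N + 1),
      (A i * (((i : ℚ) + 1) ^ (j + 1) - d ^ (j + 1)) +
        B i * ((-d) ^ (j + 1) - ((i : ℚ) + 1) ^ (j + 1))) = T j := by
  obtain ⟨S, hS⟩ := solve N
  let eps : ℚ → Fin (N + 1) → ℚ := fun d i => ∑ k : Fin (N + 1), ((-d) ^ k.1 - d ^ k.1) * S k i
  have hc : ∀ i, Continuous (fun d => eps d i) := by
    intro i; simp only [eps]; fun_prop
  have h0 : ∀ i, eps 0 i = 0 := by intro i; simp [eps]
  have hev : ∀ᶠ d in nhds (0 : ℚ), ∀ i, eps d i < 1 / (2 * (N + 1)) := by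
    rw [Filter.eventually_all]
    intro i
    have : eps 0 i < 1 / (2 * (N + 1)) := by rw [h0]; positivity
    exact (hc i).continuousAt.eventually_lt continuousAt_const this
  have hev2 : ∀ᶠ d in nhds (0 : ℚ), d < 1 := eventually_lt_nhds one_pos
  obtain ⟨d, ⟨hd1, hd2⟩, hd0⟩ := (((hev.and hev2).filter_mono
    (nhdsWithin_le_nhds (s := Set.Ioi (0 : ℚ)))).and self_mem_nhdsWithin).exists
  refine ⟨d, hd0, hd2, fun T => ?_⟩
  let r : Fin (N + 1) → ℚ := fun k => if k.1 = 0 then 0 else T (k.1 - 1)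
  let phi : Fin (N + 1) → ℚ := fun i => ∑ k, r k * S k i
  let M : ℚ := (2 * (N + 1)) * (1 + ∑ i, |phi i|)
  have hM : 0 < M := by positivity
  refine ⟨fun i => M / (N + 1) - M * eps d i + phi i, fun _ => M / (N + 1), ?_,
    fun _ => by positivity, ?_⟩
  · intro i
    have a1 : M * eps d i < M * (1 / (2 * (N + 1))) := mul_lt_mul_of_pos_left (hd1 i) hM
    have a2 : M * (1 / (2 * (N + 1))) = 1 + ∑ i, |phi i| := by
      simp only [M]; field_simp
    have a3 : M / (N + 1) = 2 * (1 + ∑ i, |phi i|) := by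
      simp only [M]; field_simp
    have a4 : |phi i| ≤ ∑ i, |phi i| :=
      Finset.single_le_sum (f := fun i => |phi i|) (fun _ _ => abs_nonneg _) (Finset.mem_univ i)
    have a5 := neg_abs_le (phi i)
    simp only
    linarith
  · intro j hj
    have e0 := hS (fun k => (-d) ^ k.1 - d ^ k.1) 0
    have e1 := hS (fun k => (-d) ^ k.1 - d ^ k.1) ⟨j + 1, by omega⟩
    have p0 := hS r 0
    have p1 := hS r ⟨j + 1, by omega⟩
    simp only [Fin.val_zero, pow_zero, mul_one, sub_self, r, if_true, Nat.succ_ne_zero, if_false,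
      Nat.add_sub_cancel] at e0 e1 p0 p1
    have key : ∑ i : Fin (N + 1),
      ((M / (N + 1) - M * eps d i + phi i) * (((i : ℚ) + 1) ^ (j + 1) - d ^ (j + 1)) +
        M / (N + 1) * ((-d) ^ (j + 1) - ((i : ℚ) + 1) ^ (j + 1)))
        = ∑ i : Fin (N + 1), (M / (N + 1) * ((-d) ^ (j + 1) - d ^ (j + 1))
          - M * (eps d i * ((i : ℚ) + 1) ^ (j + 1)) + M * d ^ (j + 1) * eps d i
          + phi i * ((i : ℚ) + 1) ^ (j + 1) - d ^ (j + 1) * phi i) :=
      Finset.sum_congr rfl fun i _ => by ring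
    rw [key]
    simp only [Finset.sum_sub_distrib, Finset.sum_add_distrib, ← Finset.mul_sum]
    simp only [eps, phi, r]
    rw [e0, e1, p0, p1]
    simp only [Finset.sum_const, Finset.card_univ, Fintype.card_fin, nsmul_eq_mul]
    push_cast
    field_simp
    ring

/-- the series of `1 / (a - X)` -/
noncomputable def gs (a : ℚ) : ℚ⟦X⟧ := PowerSeries.mk fun j => a⁻¹ ^ (j + 1)

theorem gs_mul (a : ℚ) (ha : a ≠ 0) : (C a - X) * gs a = 1 := by
  ext j
  rw [sub_mul, map_sub, coeff_C_mul]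
  cases j with
  | zero => simp [gs, ha]
  | succ j =>
    rw [coeff_succ_X_mul]
    simp only [gs, coeff_mk, coeff_one, Nat.succ_ne_zero, if_false]
    rw [pow_succ' a⁻¹ (j + 1), ← mul_assoc, mul_inv_cancel₀ ha, one_mul, sub_self]

theorem gs_sub (a b W : ℚ) (ha : a ≠ 0) (hb : b ≠ 0) :
    C (W * (b - a)) * (gs a * gs b) = C W * (gs a - gs b) := by
  have h1 := gs_mul a ha
  have h2 := gs_mul b hb
  rw [map_mul, map_sub]
  linear_combination (C W * gs a) * h2 - (C W * gs b) * h1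

theorem data (N : ℕ) : ∃ (c : ℚ) (a b w : Fin (N + 1) × Bool → ℚ), 1 < c ∧ (∀ k, a k < c) ∧
    (∀ k, b k < c) ∧ (∀ k, a k ≠ 0) ∧ (∀ k, b k ≠ 0) ∧ (∀ k, 0 < w k) ∧
    (X : ℚ⟦X⟧) ^ N ∣ 1 + gs c ^ 2 - ∑ k, C (w k) * (gs (a k) * gs (b k)) := by
  obtain ⟨d, hd0, hd1, h⟩ := moments N
  obtain ⟨A, B, hA, hB, hT⟩ := h (fun j => coeff j (1 + gs (2 / d) ^ 2))
  have hi : 1 < d⁻¹ := (one_lt_inv₀ hd0).2 hd1
  have hy : ∀ i : Fin (N + 1), 0 < ((i : ℚ) + 1)⁻¹ ∧ ((i : ℚ) + 1)⁻¹ ≤ 1 := fun i =>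
    ⟨by positivity, inv_le_one_of_one_le₀ (by have : (0 : ℚ) ≤ i := Nat.cast_nonneg _; linarith)⟩
  have h2 : 2 / d = 2 * d⁻¹ := div_eq_mul_inv _ _
  refine ⟨2 / d, fun k => if k.2 then ((k.1 : ℚ) + 1)⁻¹ else (-d)⁻¹,
    fun k => if k.2 then d⁻¹ else ((k.1 : ℚ) + 1)⁻¹,
    fun k => if k.2 then A k.1 * (d⁻¹ - ((k.1 : ℚ) + 1)⁻¹)
      else B k.1 * (((k.1 : ℚ) + 1)⁻¹ - (-d)⁻¹), by linarith, ?_, ?_, ?_, ?_, ?_, ?_⟩
  · rintro ⟨i, _ | _⟩
    · simp only [Bool.false_eq_true, if_false, inv_neg]; linarith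
    · simp only [if_true]; linarith [(hy i).2]
  · rintro ⟨i, _ | _⟩
    · simp only [Bool.false_eq_true, if_false]; linarith [(hy i).2]
    · simp only [if_true]; linarith
  · rintro ⟨i, _ | _⟩
    · simp only [Bool.false_eq_true, if_false, inv_neg]; linarith
    · simp only [if_true]; exact (hy i).1.ne'
  · rintro ⟨i, _ | _⟩
    · simp only [Bool.false_eq_true, if_false]; exact (hy i).1.ne'
    · simp only [if_true]; linarith
  · rintro ⟨i, _ | _⟩
    · simp only [Bool.false_eq_true, if_false, inv_neg]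
      exact mul_pos (hB i) (by linarith [(hy i).1])
    · simp only [if_true]
      exact mul_pos (hA i) (by linarith [(hy i).2])
  · rw [X_pow_dvd_iff]
    intro j hj
    rw [map_sub, ← hT j hj, sub_eq_zero, Fintype.sum_prod_type, map_sum]
    refine Finset.sum_congr rfl fun i _ => ?_
    simp only [Fintype.sum_bool, if_true, Bool.false_eq_true, if_false]
    rw [gs_sub _ _ _ (hy i).1.ne' (by linarith), gs_sub _ _ _ (by rw [inv_neg]; linarith) (hy i).1.ne']
    simp [gs]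

theorem denom {K : Type} [Fintype K] (q : K → ℚ) (hq : ∀ k, 0 < q k) :
    ∃ Q : ℕ, 0 < Q ∧ ∀ k, ∃ z : ℕ, 1 ≤ z ∧ (z : ℚ) = Q * q k := by
  refine ⟨∏ k, (q k).den, Finset.prod_pos fun k _ => (q k).den_pos, fun k => ?_⟩
  obtain ⟨m, hm⟩ := Finset.dvd_prod_of_mem (fun k => (q k).den) (Finset.mem_univ k)
  have hp : 0 < ∏ k, (q k).den := Finset.prod_pos fun k _ => (q k).den_pos
  have hz : ((m * (q k).num.toNat : ℕ) : ℚ) = (∏ k, (q k).den : ℕ) * q k := by
    rw [hm]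
    have : (((q k).num.toNat : ℕ) : ℚ) = (q k).num := by
      have := Int.toNat_of_nonneg (Rat.num_nonneg.2 (hq k).le)
      exact_mod_cast this
    push_cast
    rw [this, ← Rat.mul_den_eq_num]; ring
  refine ⟨m * (q k).num.toNat, ?_, hz⟩
  have : (0 : ℚ) < ((m * (q k).num.toNat : ℕ) : ℚ) := by
    rw [hz]; exact mul_pos (by exact_mod_cast hp) (hq k)
  exact_mod_cast this

theorem graph (N : ℕ) : ∃ (l t : ℂ), t ≠ 0 ∧ l ^ 2 ≠ 1 ∧
    ∃ (V : Type) (_ : Fintype V) (_ : DecidableEq V) (G : SimpleGraph V) (_ : DecidableRel G.Adj)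
      (f : V → ℂ⟦X⟧), (∀ v, 2 ≤ ∑ u, if G.Adj v u then 1 else 0) ∧
      (∀ v, (X : ℂ⟦X⟧) ^ N ∣ (C l + C t * X) ^ 2 * f v
        - (C l + C t * X) * (∑ u, if G.Adj v u then f u else 0)
        + (((∑ u, if G.Adj v u then 1 else 0 : ℕ) : ℂ⟦X⟧) - 1) * f v) ∧
      ∃ v0, coeff 0 (f v0) ≠ 0 := by
  obtain ⟨c, a, b, w, hc, ha, hb, ha0, hb0, hw, hdiv⟩ := data N
  obtain ⟨Q, hQ, hz⟩ := denom (K := (Fin (N + 1) × Bool) × Fin 3)
    (fun k => ![c - a k.1, c - b k.1, w k.1 / ((c - a k.1) + (c - b k.1))] k.2) (by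
      rintro ⟨k, i⟩
      have := ha k; have := hb k; have := hw k
      fin_cases i
      · simp; linarith
      · simp; linarith
      · simp only [Fin.reduceFinMk, Matrix.cons_val]
        apply div_pos <;> linarith)
  choose z hz1 hz2 using hz
  let A : Fin (N + 1) × Bool → ℕ := fun k => z (k, 0)
  let B : Fin (N + 1) × Bool → ℕ := fun k => z (k, 1)
  let m : Fin (N + 1) × Bool → ℕ := fun k => z (k, 2)
  have hA : ∀ k, (A k : ℚ) = Q * (c - a k) := fun k => hz2 (k, 0)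
  have hB : ∀ k, (B k : ℚ) = Q * (c - b k) := fun k => hz2 (k, 1)
  have hm : ∀ k, (m k : ℚ) = Q * (w k / ((c - a k) + (c - b k))) := fun k => hz2 (k, 2)
  have hA1 : ∀ k, 1 ≤ A k := fun k => hz1 (k, 0)
  have hB1 : ∀ k, 1 ≤ B k := fun k => hz1 (k, 1)
  let n0 : ℕ := 3 + ∑ k, m k * (A k + B k)
  have hn0 : 3 ≤ n0 := Nat.le_add_right _ _
  let t : ℚ := Q * n0
  have ht1 : 1 ≤ t := by
    have : 1 ≤ Q * n0 := Nat.mul_pos hQ (by omega)
    simp only [t]; exact_mod_cast this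
  let L : ℚ⟦X⟧ := C (-(t * c)) + C t * X
  let y : Fin (N + 1) × Bool → ℚ⟦X⟧ := fun k => - C ((n0 : ℚ) / t ^ 2) * L * (gs (a k) * gs (b k))
  have hy : ∀ k, (L ^ 2 + (n0 * (A k + B k) : ℕ) * L + (n0 * n0 * (A k * B k) : ℕ)) * y k
      + n0 * L = 0 := by
    intro k
    have h1 := gs_mul (a k) (ha0 k)
    have h2 := gs_mul (b k) (hb0 k)
    have e1 : ((n0 * (A k + B k) : ℕ) : ℚ⟦X⟧) = C t * ((C c - C (a k)) + (C c - C (b k))) := by
      rw [← map_natCast (C (R := ℚ)), ← map_sub, ← map_sub, ← map_add, ← map_mul]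
      congr 1; push_cast; rw [hA, hB]; simp only [t]; ring
    have e2 : ((n0 * n0 * (A k * B k) : ℕ) : ℚ⟦X⟧)
        = C t ^ 2 * ((C c - C (a k)) * (C c - C (b k))) := by
      rw [← map_natCast (C (R := ℚ)), ← map_sub, ← map_sub, ← map_mul, ← map_pow, ← map_mul]
      congr 1; push_cast; rw [hA, hB]; simp only [t]; ring
    have e3 : (n0 : ℚ⟦X⟧) = C t ^ 2 * C ((n0 : ℚ) / t ^ 2) := by
      rw [← map_natCast (C (R := ℚ)), ← map_pow, ← map_mul]
      congr 1; field_simp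
    have e4 : L = C t * (X - C c) := by simp only [L, map_neg, map_mul]; ring
    rw [e1, e2, e3]
    simp only [y]
    rw [e4]
    linear_combination (-(C t ^ 3 * C ((n0 : ℚ) / t ^ 2) * (X - C c))) *
      (((C (b k) - X) * gs (b k)) * h1 + h2)
  have hcen : (X : ℚ⟦X⟧) ^ N ∣ L ^ 2 + (Q * n0 * (Q * n0) : ℕ) +
      L * ∑ k : (Σ k, Fin (m k)), (n0 * (A k.1 + B k.1) : ℕ) * y k.1 := by
    have h1 := gs_mul c (by linarith)
    have e4 : L = C t * (X - C c) := by simp only [L, map_neg, map_mul]; ring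
    have e0 : ((Q * n0 * (Q * n0) : ℕ) : ℚ⟦X⟧) = C t ^ 2 := by
      rw [← map_natCast (C (R := ℚ)), ← map_pow]
      congr 1; push_cast; simp only [t]; ring
    have e5 : ∑ k : (Σ k, Fin (m k)), ((n0 * (A k.1 + B k.1) : ℕ) : ℚ⟦X⟧) * y k.1
        = - L * ∑ k, C (w k) * (gs (a k) * gs (b k)) := by
      rw [Fintype.sum_sigma, Finset.mul_sum]
      refine Finset.sum_congr rfl fun k _ => ?_
      simp only [Finset.sum_const, Finset.card_univ, Fintype.card_fin, nsmul_eq_mul, y]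
      have : (m k : ℚ⟦X⟧) * ((n0 * (A k + B k) : ℕ) : ℚ⟦X⟧) * C ((n0 : ℚ) / t ^ 2) = C (w k) := by
        rw [← map_natCast (C (R := ℚ)), ← map_natCast (C (R := ℚ)), ← map_mul, ← map_mul]
        congr 1; push_cast; rw [hA, hB, hm]
        have : (c - a k) + (c - b k) ≠ 0 := by linarith [ha k, hb k]
        have hq : (Q : ℚ) ≠ 0 := by exact_mod_cast hQ.ne'
        have hn : (n0 : ℚ) ≠ 0 := by exact_mod_cast (by omega : n0 ≠ 0)
        simp only [t]
        field_simp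
      rw [← this]; ring
    rw [e5, e0]
    convert hdiv.mul_left (L ^ 2) using 1
    rw [e4]
    linear_combination (-(C t ^ 2) * (1 + (C c - X) * gs c)) * h1
  let φ : ℚ⟦X⟧ →+* ℂ⟦X⟧ := PowerSeries.map (Rat.castHom ℂ)
  have hL : φ L = C ((-(t * c) : ℚ) : ℂ) + C (t : ℂ) * X := by
    simp [φ, L]
  refine ⟨((-(t * c) : ℚ) : ℂ), (t : ℂ), by exact_mod_cast (by linarith : t ≠ 0), ?_, ?_⟩
  · have h0 : 1 < t * c := by nlinarith
    have : (-(t * c)) ^ 2 ≠ 1 := by nlinarith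
    exact_mod_cast this
  · rw [← hL]
    refine lemC (A := Σ k, Fin (m k)) n0 (Q * n0 * (Q * n0)) (by omega)
      (Nat.mul_pos (Nat.mul_pos hQ (by omega)) (Nat.mul_pos hQ (by omega)))
      (fun k => n0 * (A k.1 + B k.1)) (fun k => n0 * n0 * (A k.1 * B k.1)) ?_ ?_ ?_ N (φ L)
      (fun k => φ (y k.1)) ?_ ?_
    · intro k
      exact Nat.mul_pos (Nat.mul_pos (by omega) (by omega)) (Nat.mul_pos (hA1 _) (hB1 _))
    · rw [Fintype.sum_sigma]
      simp only [Finset.sum_const, Finset.card_univ, Fintype.card_fin, smul_eq_mul]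
      have : ∑ k, m k * (n0 * (A k + B k)) = n0 * ∑ k, m k * (A k + B k) := by
        rw [Finset.mul_sum]; exact Finset.sum_congr rfl fun k _ => by ring
      rw [this]
      have h1 : ∑ k, m k * (A k + B k) ≤ n0 := Nat.le_add_left _ _
      have h2 : n0 ≤ Q * n0 := Nat.le_mul_of_pos_left _ hQ
      calc n0 * ∑ k, m k * (A k + B k) ≤ (Q * n0) * (Q * n0) := Nat.mul_le_mul h2 (h1.trans h2)
        _ ≤ _ := Nat.le_succ _
    · intro k
      have h1 := hA1 k.1
      have h2 := hB1 k.1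
      have h3 : 1 + (A k.1 + B k.1) ≤ n0 * (A k.1 * B k.1) := by
        have : 1 + (A k.1 + B k.1) ≤ 3 * (A k.1 * B k.1) := by nlinarith
        exact this.trans (Nat.mul_le_mul_right _ hn0)
      have h4 := Nat.mul_le_mul_left n0 h3
      nlinarith
    · intro k
      have := congrArg φ (hy k.1)
      simpa only [map_add, map_mul, map_pow, map_natCast, map_zero] using this
    · have := map_dvd φ hcen
      simpa only [map_add, map_mul, map_pow, map_natCast, map_sum, φ, PowerSeries.map_X] using this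

theorem result (k : ℕ) : ∃ (n : ℕ) (G : SimpleGraph (Fin n)) (_ : DecidableRel G.Adj),
    3 ≤ n ∧ (∀ v, G.degree v ≠ 1) ∧ (∃ u v, G.Adj u v) ∧
    (∃ (l : ℂ) (x : DE G → ℂ), (nb G - l • (1 : Matrix (DE G) (DE G) ℂ)) ^ (k + 1) *ᵥ x = 0 ∧
      (nb G - l • (1 : Matrix (DE G) (DE G) ℂ)) ^ k *ᵥ x ≠ 0) ∧
    ∀ (r : ℕ) (sz : Fin r → ℕ) (mu : Fin r → ℂ)
      (b : Module.Basis (Σ i : Fin r, Fin (sz i)) ℂ (DE G → ℂ)),
      IsJordanBasis (nb G) r sz mu b → ∃ i, k + 1 ≤ sz i := by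
  obtain ⟨l, t, ht, hl, V, _, _, G, _, f, hdeg, hf, v0, hv0⟩ := graph (k + 1)
  let e := (Fintype.equivFin V).symm
  let H : SimpleGraph (Fin (Fintype.card V)) := G.comap e
  have inst : DecidableRel H.Adj := Classical.decRel _
  have hsum : ∀ {A : Type} [AddCommMonoid A] (F : V → A) (v : Fin (Fintype.card V)),
      (∑ u, if H.Adj v u then F (e u) else 0) = ∑ u, if G.Adj (e v) u then F u else 0 := by
    intro A _ F v
    rw [← Equiv.sum_comp e]
    refine Finset.sum_congr rfl fun u _ => ?_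
    by_cases h : G.Adj (e v) (e u)
    · rw [if_pos h, if_pos (show H.Adj v u from h)]
    · rw [if_neg h, if_neg (show ¬ H.Adj v u from h)]
  have hd : ∀ v, H.degree v = ∑ u, if G.Adj (e v) u then 1 else 0 := by
    intro v
    rw [← hsum (fun _ => 1) v, ← SimpleGraph.card_neighborFinset_eq_degree,
      SimpleGraph.neighborFinset_eq_filter]
    simp
  have h2 : ∀ v, 2 ≤ H.degree v := fun v => by rw [hd]; exact hdeg _
  obtain ⟨u0, hu0⟩ := (H.degree_pos_iff_exists_adj (e.symm v0)).1 (by have := h2 (e.symm v0); omega)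
  obtain ⟨x, hx1, hx2⟩ := chain H k l t ht hl (fun v => f (e v)) (fun v => by
    rw [hsum f v, hd]; exact hf (e v)) (e.symm v0) u0 hu0 (by simpa using hv0)
  refine ⟨_, H, inst, ?_, fun v => by have := h2 v; omega, ⟨_, _, hu0⟩, ⟨l, x, hx1, hx2⟩,
    fun r sz mu b hb => jordan_of_chain _ k l x hx1 hx2 r sz mu b hb⟩
  have := H.degree_lt_card_verts (e.symm v0)
  have := h2 (e.symm v0)
  simp only [Fintype.card_fin] at *
  omega

end Pool.Agent.Results.MP_b5bb8b_co.Unbounded
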